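import Pool.Agent.Helper5.PH.Defs

/-!
# Module TY (MP_d3b2ba_co): types balanced along both ends of a word (helper34)
-/

set_option autoImplicit false

namespace Pool.Agent.Helper5.PH

open Pool.Agent.Helper25.PF

/-- ranks compatible with the first occurrences in a list -/
theorem ty_rank {α : Type} [DecidableEq α] (D : List α) : ∀ S : Finset α,
    ∃ f : α → ℕ, (∀ a ∈ S, ∀ b ∈ S, f a = f b → a = b) ∧ (∀ a ∈ S, f a < S.card) ∧
      (∀ u, ∀ a ∈ S, a ∈ D.take u → f a < u) := by
  induction D with
  | nil =>
    intro S
    refine ⟨fun a => if h : a ∈ S then (S.equivFin ⟨a, h⟩ : ℕ) else 0, ?_, ?_, ?_⟩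
    · intro a ha b hb hab
      simp only [ha, hb, dite_true] at hab
      have := S.equivFin.injective (Fin.ext hab)
      exact congrArg Subtype.val this
    · intro a ha
      simp only [ha, dite_true]
      exact (S.equivFin ⟨a, ha⟩).isLt
    · intro u a _ ha
      simp at ha
  | cons d D ih =>
    intro S
    by_cases hd : d ∈ S
    · obtain ⟨f, h1, h2, h3⟩ := ih (S.erase d)
      have hcard : (S.erase d).card + 1 = S.card := Finset.card_erase_add_one hd
      refine ⟨fun a => if a = d then 0 else f a + 1, ?_, ?_, ?_⟩
      · intro a ha b hb hab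
        by_cases had : a = d
        · by_cases hbd : b = d
          · rw [had, hbd]
          · simp [had, hbd] at hab
        · by_cases hbd : b = d
          · simp [had, hbd] at hab
          · simp only [had, hbd, if_false] at hab
            exact h1 a (Finset.mem_erase.mpr ⟨had, ha⟩) b (Finset.mem_erase.mpr ⟨hbd, hb⟩)
              (by omega)
      · intro a ha
        by_cases had : a = d
        · simp only [had, if_true]
          omega
        · simp only [had, if_false]
          have := h2 a (Finset.mem_erase.mpr ⟨had, ha⟩)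
          omega
      · intro u a ha hu
        rcases u with _ | u
        · simp at hu
        · rw [List.take_succ_cons, List.mem_cons] at hu
          by_cases had : a = d
          · simp only [had, if_true]; omega
          · simp only [had, if_false]
            have := h3 u a (Finset.mem_erase.mpr ⟨had, ha⟩) (hu.resolve_left had)
            omega
    · obtain ⟨f, h1, h2, h3⟩ := ih S
      refine ⟨f, h1, h2, ?_⟩
      intro u a ha hu
      rcases u with _ | u
      · simp at hu
      · rw [List.take_succ_cons, List.mem_cons] at hu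
        have had : a ≠ d := by rintro rfl; exact hd ha
        have := h3 u a ha (hu.resolve_left had)
        omega

/-- a perfect matching of a regular bipartite multigraph -/
theorem ty_match {E : Type} [DecidableEq E] {m r : ℕ} (L R : E → Fin m) (S : Finset E)
    (hr : 1 ≤ r) (hL : ∀ x, (S.filter (fun e => L e = x)).card = r)
    (hR : ∀ x, (S.filter (fun e => R e = x)).card = r) :
    ∃ T ⊆ S, (∀ x, (T.filter (fun e => L e = x)).card = 1) ∧
      (∀ x, (T.filter (fun e => R e = x)).card = 1) := by
  have hall : ∀ A : Finset (Fin m),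
      A.card ≤ (A.biUnion (fun x => (S.filter (fun e => L e = x)).image R)).card := by
    intro A
    set U := A.biUnion (fun x => (S.filter (fun e => L e = x)).image R) with hU
    have h1 : (S.filter (fun e => L e ∈ A)).card = A.card * r := by
      rw [Finset.card_eq_sum_card_fiberwise (f := L) (t := A)]
      · rw [Finset.sum_congr rfl (g := fun _ => r)]
        · simp
        · intro x hx
          rw [← hL x, Finset.filter_filter]
          congr 1
          ext e
          simp only [Finset.mem_filter]
          constructor
          · rintro ⟨h, _, h'⟩; exact ⟨h, h'⟩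
          · rintro ⟨h, h'⟩; exact ⟨h, h' ▸ hx, h'⟩
      · intro e he
        exact (Finset.mem_filter.mp he).2
    have h2 : (S.filter (fun e => R e ∈ U)).card = U.card * r := by
      rw [Finset.card_eq_sum_card_fiberwise (f := R) (t := U)]
      · rw [Finset.sum_congr rfl (g := fun _ => r)]
        · simp
        · intro x hx
          rw [← hR x, Finset.filter_filter]
          congr 1
          ext e
          simp only [Finset.mem_filter]
          constructor
          · rintro ⟨h, _, h'⟩; exact ⟨h, h'⟩
          · rintro ⟨h, h'⟩; exact ⟨h, h' ▸ hx, h'⟩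
      · intro e he
        exact (Finset.mem_filter.mp he).2
    have h3 : S.filter (fun e => L e ∈ A) ⊆ S.filter (fun e => R e ∈ U) := by
      intro e he
      rw [Finset.mem_filter] at he ⊢
      refine ⟨he.1, ?_⟩
      rw [hU, Finset.mem_biUnion]
      exact ⟨L e, he.2, Finset.mem_image_of_mem R (Finset.mem_filter.mpr ⟨he.1, rfl⟩)⟩
    have h4 := Finset.card_le_card h3
    rw [h1, h2] at h4
    exact Nat.le_of_mul_le_mul_right h4 hr
  obtain ⟨f, hf, hft⟩ := (Finset.all_card_le_biUnion_card_iff_exists_injective _).mp hall
  have hch : ∀ x, ∃ e ∈ S, L e = x ∧ R e = f x := by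
    intro x
    obtain ⟨e, he, hex⟩ := Finset.mem_image.mp (hft x)
    rw [Finset.mem_filter] at he
    exact ⟨e, he.1, he.2, hex⟩
  choose g hgS hgL hgR using hch
  have hfs : Function.Surjective f := Finite.surjective_of_injective hf
  refine ⟨Finset.univ.image g, ?_, ?_, ?_⟩
  · intro e he
    obtain ⟨x, _, rfl⟩ := Finset.mem_image.mp he
    exact hgS x
  · intro x
    rw [Finset.card_eq_one]
    refine ⟨g x, ?_⟩
    ext e
    rw [Finset.mem_filter, Finset.mem_singleton]
    constructor
    · rintro ⟨he, hx⟩
      obtain ⟨y, _, rfl⟩ := Finset.mem_image.mp he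
      rw [hgL] at hx
      rw [hx]
    · rintro rfl
      exact ⟨Finset.mem_image_of_mem g (Finset.mem_univ x), hgL x⟩
  · intro y
    obtain ⟨x, rfl⟩ := hfs y
    rw [Finset.card_eq_one]
    refine ⟨g x, ?_⟩
    ext e
    rw [Finset.mem_filter, Finset.mem_singleton]
    constructor
    · rintro ⟨he, hx⟩
      obtain ⟨y, _, rfl⟩ := Finset.mem_image.mp he
      rw [hgR] at hx
      rw [hf hx]
    · rintro rfl
      exact ⟨Finset.mem_image_of_mem g (Finset.mem_univ x), hgR x⟩

theorem ty_sdiff {E : Type} [DecidableEq E] {m r : ℕ} (L : E → Fin m) (S T : Finset E)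
    (hTS : T ⊆ S) (hL : ∀ x, (S.filter (fun e => L e = x)).card = r + 1)
    (hT : ∀ x, (T.filter (fun e => L e = x)).card = 1) :
    ∀ x, ((S \ T).filter (fun e => L e = x)).card = r := by
  intro x
  have h1 : (S \ T).filter (fun e => L e = x) =
      S.filter (fun e => L e = x) \ T.filter (fun e => L e = x) := by
    ext e
    simp only [Finset.mem_filter, Finset.mem_sdiff]
    tauto
  rw [h1, Finset.card_sdiff_of_subset (Finset.filter_subset_filter _ hTS), hL, hT]
  rfl

/-- Koenig: 3-edge-colouring of a 3-regular bipartite multigraph -/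
theorem ty_koenig {E : Type} [Fintype E] [DecidableEq E] {m : ℕ} (L R : E → Fin m)
    (hL : ∀ x, (Finset.univ.filter (fun e => L e = x)).card = 3)
    (hR : ∀ x, (Finset.univ.filter (fun e => R e = x)).card = 3) :
    ∃ c : E → ℕ, (∀ e, c e < 3) ∧
      (∀ k, k < 3 → ∀ x, (Finset.univ.filter (fun e => c e = k ∧ L e = x)).card = 1) ∧
      (∀ k, k < 3 → ∀ x, (Finset.univ.filter (fun e => c e = k ∧ R e = x)).card = 1) := by
  obtain ⟨T1, hT1, a1, b1⟩ := ty_match L R Finset.univ (by norm_num) hL hR
  have hL2 := ty_sdiff L Finset.univ T1 hT1 hL a1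
  have hR2 := ty_sdiff R Finset.univ T1 hT1 hR b1
  obtain ⟨T2, hT2, a2, b2⟩ := ty_match L R (Finset.univ \ T1) (by norm_num) hL2 hR2
  have hL3 := ty_sdiff L (Finset.univ \ T1) T2 hT2 hL2 a2
  have hR3 := ty_sdiff R (Finset.univ \ T1) T2 hT2 hR2 b2
  have hdis : ∀ e, e ∈ T2 → e ∉ T1 := fun e he => (Finset.mem_sdiff.mp (hT2 he)).2
  refine ⟨fun e => if e ∈ T1 then 0 else if e ∈ T2 then 1 else 2, ?_, ?_, ?_⟩
  · intro e
    simp only
    split_ifs <;> omega
  · intro k hk x
    have hk' : k = 0 ∨ k = 1 ∨ k = 2 := by omega
    rcases hk' with rfl | rfl | rfl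
    · refine (congrArg Finset.card ?_).trans (a1 x)
      ext e
      by_cases h1 : e ∈ T1 <;> by_cases h2 : e ∈ T2 <;> simp [h1, h2]
    · refine (congrArg Finset.card ?_).trans (a2 x)
      ext e
      by_cases h2 : e ∈ T2
      · simp [hdis e h2, h2]
      · by_cases h1 : e ∈ T1 <;> simp [h1, h2]
    · refine (congrArg Finset.card ?_).trans (hL3 x)
      ext e
      by_cases h1 : e ∈ T1 <;> by_cases h2 : e ∈ T2 <;> simp [h1, h2]
  · intro k hk x
    have hk' : k = 0 ∨ k = 1 ∨ k = 2 := by omega
    rcases hk' with rfl | rfl | rfl
    · refine (congrArg Finset.card ?_).trans (b1 x)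
      ext e
      by_cases h1 : e ∈ T1 <;> by_cases h2 : e ∈ T2 <;> simp [h1, h2]
    · refine (congrArg Finset.card ?_).trans (b2 x)
      ext e
      by_cases h2 : e ∈ T2
      · simp [hdis e h2, h2]
      · by_cases h1 : e ∈ T1 <;> simp [h1, h2]
    · refine (congrArg Finset.card ?_).trans (hR3 x)
      ext e
      by_cases h1 : e ∈ T1 <;> by_cases h2 : e ∈ T2 <;> simp [h1, h2]

/-- blocks of an enumeration have three elements -/
theorem ty_block {E : Type} [Fintype E] [DecidableEq E] {m : ℕ} (g : E → ℕ)
    (hg : Function.Injective g) (hlt : ∀ e, g e < 3 * m) (hcard : Fintype.card E = 3 * m)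
    (b : ℕ) (hb : b < m) : (Finset.univ.filter (fun e => g e / 3 = b)).card = 3 := by
  have himg : Finset.univ.image g = Finset.range (3 * m) := by
    apply Finset.eq_of_subset_of_card_le
    · intro x hx
      obtain ⟨e, _, rfl⟩ := Finset.mem_image.mp hx
      exact Finset.mem_range.mpr (hlt e)
    · rw [Finset.card_image_of_injective _ hg, Finset.card_range, Finset.card_univ, hcard]
  have h1 : ((Finset.univ.filter (fun e => g e / 3 = b)).image g) =
      (Finset.range (3 * m)).filter (fun x => x / 3 = b) := by
    rw [← himg, Finset.filter_image]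
  rw [← Finset.card_image_of_injective _ hg, h1]
  have h2 : (Finset.range (3 * m)).filter (fun x => x / 3 = b) =
      {3 * b, 3 * b + 1, 3 * b + 2} := by
    ext x
    simp only [Finset.mem_filter, Finset.mem_range, Finset.mem_insert, Finset.mem_singleton]
    omega
  rw [h2]
  rw [Finset.card_insert_of_notMem, Finset.card_insert_of_notMem, Finset.card_singleton]
  · simp
  · simp

/-- Module TY. Types balanced along both ends of a word. -/
theorem exists_typing {α : Type} [Fintype α] [DecidableEq α] (D : List α) :
    ∃ ty : α → ℕ, (∀ a, ty a < 3) ∧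
      (∀ c, c < 3 → Fintype.card α / 3 ≤ (Finset.univ.filter (fun a => ty a = c)).card) ∧
      (∀ u c, ((D.take u).toFinset.filter (fun a => ty a = c)).card ≤ (u + 2) / 3) ∧
      (∀ u c, ((D.reverse.take u).toFinset.filter (fun a => ty a = c)).card ≤ (u + 2) / 3) := by
  obtain ⟨f, f1, f2, f3⟩ := ty_rank D (Finset.univ : Finset α)
  obtain ⟨g, g1, g2, g3⟩ := ty_rank D.reverse (Finset.univ : Finset α)
  rw [Finset.card_univ] at f2 g2
  set n := Fintype.card α with hn
  set m := (n + 2) / 3 with hm
  set k := 3 * m - n with hk
  have hmk : n + k = 3 * m := by omega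
  let F : α ⊕ Fin k → ℕ := Sum.elim f (fun i : Fin k => n + (i : ℕ))
  let G : α ⊕ Fin k → ℕ := Sum.elim g (fun i : Fin k => n + (i : ℕ))
  have hFi : Function.Injective F := by
    rintro (a | i) (b | j) hab
    · rw [f1 a (Finset.mem_univ _) b (Finset.mem_univ _) hab]
    · exfalso
      have := f2 a (Finset.mem_univ _)
      simp only [F, Sum.elim_inl, Sum.elim_inr] at hab
      omega
    · exfalso
      have := f2 b (Finset.mem_univ _)
      simp only [F, Sum.elim_inl, Sum.elim_inr] at hab
      omega
    · simp only [F, Sum.elim_inr] at hab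
      congr 1
      exact Fin.ext (by omega)
  have hGi : Function.Injective G := by
    rintro (a | i) (b | j) hab
    · rw [g1 a (Finset.mem_univ _) b (Finset.mem_univ _) hab]
    · exfalso
      have := g2 a (Finset.mem_univ _)
      simp only [G, Sum.elim_inl, Sum.elim_inr] at hab
      omega
    · exfalso
      have := g2 b (Finset.mem_univ _)
      simp only [G, Sum.elim_inl, Sum.elim_inr] at hab
      omega
    · simp only [G, Sum.elim_inr] at hab
      congr 1
      exact Fin.ext (by omega)
  have hFl : ∀ e, F e < 3 * m := by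
    rintro (a | i)
    · have := f2 a (Finset.mem_univ _)
      simp only [F, Sum.elim_inl]
      omega
    · have := i.isLt
      simp only [F, Sum.elim_inr]
      omega
  have hGl : ∀ e, G e < 3 * m := by
    rintro (a | i)
    · have := g2 a (Finset.mem_univ _)
      simp only [G, Sum.elim_inl]
      omega
    · have := i.isLt
      simp only [G, Sum.elim_inr]
      omega
  have hcard : Fintype.card (α ⊕ Fin k) = 3 * m := by
    rw [Fintype.card_sum, Fintype.card_fin, ← hn, hmk]
  have hFd : ∀ e, F e / 3 < m := fun e => by have := hFl e; omega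
  have hGd : ∀ e, G e / 3 < m := fun e => by have := hGl e; omega
  obtain ⟨c, c0, c1, c2⟩ := ty_koenig (fun e => (⟨F e / 3, hFd e⟩ : Fin m))
    (fun e => (⟨G e / 3, hGd e⟩ : Fin m)) (by
      intro x
      refine (congrArg Finset.card ?_).trans (ty_block F hFi hFl hcard x x.isLt)
      ext e
      simp [Fin.ext_iff]) (by
      intro x
      refine (congrArg Finset.card ?_).trans (ty_block G hGi hGl hcard x x.isLt)
      ext e
      simp [Fin.ext_iff])
  -- same block and same type implies equal
  have u1 : ∀ e e', F e / 3 = F e' / 3 → c e = c e' → e = e' := by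
    intro e e' h1 h2
    have := c1 (c e) (c0 e) ⟨F e / 3, hFd e⟩
    rw [Finset.card_eq_one] at this
    obtain ⟨y, hy⟩ := this
    have he : e ∈ ({y} : Finset _) := by rw [← hy]; simp
    have he' : e' ∈ ({y} : Finset _) := by rw [← hy]; simp [h1, h2]
    rw [Finset.mem_singleton] at he he'
    rw [he, he']
  have u2 : ∀ e e', G e / 3 = G e' / 3 → c e = c e' → e = e' := by
    intro e e' h1 h2
    have := c2 (c e) (c0 e) ⟨G e / 3, hGd e⟩
    rw [Finset.card_eq_one] at this
    obtain ⟨y, hy⟩ := this
    have he : e ∈ ({y} : Finset _) := by rw [← hy]; simp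
    have he' : e' ∈ ({y} : Finset _) := by rw [← hy]; simp [h1, h2]
    rw [Finset.mem_singleton] at he he'
    rw [he, he']
  refine ⟨fun a => c (Sum.inl a), fun a => c0 _, ?_, ?_, ?_⟩
  · intro t ht
    -- one letter of each type in each full block
    have hex : ∀ b, b < n / 3 → ∃ a : α, c (Sum.inl a) = t ∧ f a / 3 = b := by
      intro b hb
      have := c1 t ht ⟨b, by omega⟩
      rw [Finset.card_eq_one] at this
      obtain ⟨y, hy⟩ := this
      have hyy : y ∈ ({y} : Finset _) := Finset.mem_singleton_self _
      rw [← hy, Finset.mem_filter] at hyy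
      obtain ⟨_, hy1, hy2⟩ := hyy
      have hy3 : F y / 3 = b := congrArg Fin.val hy2
      rcases y with a | i
      · exact ⟨a, hy1, hy3⟩
      · exfalso
        simp only [F, Sum.elim_inr] at hy3
        omega
    calc n / 3 = (Finset.range (n / 3)).card := (Finset.card_range _).symm
      _ ≤ _ := by
          refine Finset.card_le_card_of_surjOn (fun a => f a / 3) ?_
          intro b hb
          obtain ⟨a, h1, h2⟩ := hex b (Finset.mem_range.mp (Finset.mem_coe.mp hb))
          refine ⟨a, ?_, h2⟩
          rw [Finset.mem_coe, Finset.mem_filter]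
          exact ⟨Finset.mem_univ _, h1⟩
  · intro u t
    calc _ ≤ (Finset.range ((u + 2) / 3)).card := by
          refine Finset.card_le_card_of_injOn (fun a => f a / 3) ?_ ?_
          · intro a ha
            rw [Finset.mem_coe, Finset.mem_filter, List.mem_toFinset] at ha
            have := f3 u a (Finset.mem_univ _) ha.1
            rw [Finset.mem_coe, Finset.mem_range]
            simp only
            omega
          · intro a ha b hb hab
            rw [Finset.mem_coe, Finset.mem_filter] at ha hb
            exact Sum.inl_injective (u1 (Sum.inl a) (Sum.inl b) hab (ha.2.trans hb.2.symm))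
      _ = _ := Finset.card_range _
  · intro u t
    calc _ ≤ (Finset.range ((u + 2) / 3)).card := by
          refine Finset.card_le_card_of_injOn (fun a => g a / 3) ?_ ?_
          · intro a ha
            rw [Finset.mem_coe, Finset.mem_filter, List.mem_toFinset] at ha
            have := g3 u a (Finset.mem_univ _) ha.1
            rw [Finset.mem_coe, Finset.mem_range]
            simp only
            omega
          · intro a ha b hb hab
            rw [Finset.mem_coe, Finset.mem_filter] at ha hb
            exact Sum.inl_injective (u2 (Sum.inl a) (Sum.inl b) hab (ha.2.trans hb.2.symm))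
      _ = _ := Finset.card_range _

end Pool.Agent.Helper5.PH
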